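import Pool.Agent.U20.DG.Main

/-!
# Satisfiable d-to-1 games are hard for read-once tensor networks, even with cancellations

A tree tensor network `Net K V A W` (`Pool/Agent/TH700/PA/Defs.lean`) has leaves that read one
symbol of the alphabet `A` each (with a vector in `K ^ W` for each symbol); an inner node combines
the vectors of its two children by an arbitrary bilinear map. It accepts the input `x` if a linear
form of the vector of the root is not zero. The field `K` and the weights are arbitrary, so there
may be cancellations. The tree is arbitrary; if every right child is a leaf then this is a matrix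
product (a weighted ordered read-once branching program, for any order of the edges). The bond
dimension is `card W`.

The inputs are d-to-1 games on `n + n` vertices whose edges are all pairs, the vertices of one side
have `d q` labels and those of the other side `q` labels, and for each edge there is a map of the
`d q` labels to the `q` labels with fibers of at most `d` elements (`Pool/Agent/U20/DG/Defs.lean`);
a leaf reads the map of one edge. For all `g ≥ 1`, `d ≥ 1`, `q ≥ 2 ^ 57 d g ^ 8` and
`n ≥ 2 ^ 24 g ^ 4` networks with any number of nodes, which read every edge at most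
once, accept all games of value `1` and reject all games of value at most `1 / g`, have bond
dimension at least `q ^ (n / (2 ^ 14 g ^ 2))`; the exponent does not depend on `d`. This holds up
to the factor `2 ^ μ` also for random networks which never accept a game of value at most `1 / g`
and accept every game of value `1` with probability at least `2 ^ (- μ)` (the deterministic case is
`R = Unit`, `μ = 0`).

Conversely the number of labelings which satisfy all edges is computed by a linear network over `ℚ`
with `2 n ^ 2 - 1` nodes and bond dimension `(d q) ^ n q ^ n` which reads every edge once.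

The case of 2-to-1 games with the same labels on both sides is the starting result
`MP_ec946a_lc.TensorNetworks`, whose lemmas on tensor networks (rank of the parts, replacement
lemma) are used. The random games are again a random labeling and random constraint maps which
it satisfies. What is needed of the maps with small fibers is shown by exchanging labels, for all
numbers `a`, `b` of labels and all `d` (`U20/DG/Maps.lean`): if `κ (d - 1) < a` and `κ < b` then among
the maps with `f i = c` at most a fraction `1 / κ` has `f i' = c'` as well.
-/

set_option autoImplicit false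

namespace Pool.Agent.Results.MP_62e2f2_lc.TensorNetworks

open Pool.Agent.U20.DG
open Pool.Agent.TH700.PA (Net)

theorem result :
    (∀ g d q n : ℕ, 1 ≤ g → 1 ≤ d → 2 ^ 57 * d * g ^ 8 ≤ q → 2 ^ 24 * g ^ 4 ≤ n →
      ∀ (μ : ℕ) (R : Type) [Fintype R] [Nonempty R] (K W : R → Type) [∀ ρ, Field (K ρ)]
        [∀ ρ, Fintype (W ρ)] (T : ∀ ρ, Net (K ρ) (Fin n × Fin n) (Mp (d * q) q d) (W ρ))
        (c : ∀ ρ, W ρ → K ρ),
        (∀ ρ e, (T ρ).reads e ≤ 1) →
        (∀ ρ x, ValueLe g x → (T ρ).value (c ρ) x = 0) →
        (∀ x, ValueOne x →
          Nat.card R ≤ 2 ^ μ * Nat.card {ρ // (T ρ).value (c ρ) x ≠ 0}) →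
        ∃ ρ, q ^ n ≤ (2 ^ μ * Fintype.card (W ρ)) ^ (2 ^ 14 * g ^ 2)) ∧
    (∀ d q n : ℕ, 1 ≤ n → Fintype.card (Lab n (d * q) q) = (d * q) ^ n * q ^ n ∧
      ∃ (T : Net ℚ (Fin n × Fin n) (Mp (d * q) q d) (Lab n (d * q) q))
        (c : Lab n (d * q) q → ℚ),
        T.Linear ∧ (∀ e, T.reads e = 1) ∧ T.size = 2 * (n * n) - 1 ∧
          ∀ x, T.value c x ≠ 0 ↔ ValueOne x) :=
  ⟨fun _ _ _ _ hg hd hq hn μ R _ _ K W _ _ T c h1 hno hyes =>
    dto_net hg hd hq hn μ R K W T c h1 hno hyes,
    fun d q _ hn => ⟨card_lab, upper_net hn (d * q) q d⟩⟩

end Pool.Agent.Results.MP_62e2f2_lc.TensorNetworks
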