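import Mathlib
import Pool.Agent.U397.PG.Iso
import Pool.Agent.Results.MP_8d8c46_lc.CayleyTest

set_option autoImplicit false
set_option linter.unusedSectionVars false
set_option linter.unusedVariables false

/-!
# Small-set expansion in Cayley graphs over abelian `p`-groups: the optimal sets are subgroups

Let `V` be a finite abelian `p`-group and let `μ ≥ 0` be a weight on `V` which is constant on the
sets of generators of the cyclic subgroups (`μ(c s) = μ(s)` for `c` prime to `p`). The Cayley graphs
of this kind (the connection set is a union of sets of generators of cyclic subgroups) are the Cayley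
graphs over abelian `p`-groups with integral eigenvalues (Bridges and Mena). For a nonempty set `A`
let `wexp μ A = ∑_s μ(s) |{x ∈ A : x + s ∉ A}| / |A|` be its expansion and
`lsize A = log (|V| / |A|)`. For a subgroup `W` these numbers are `μ(V ∖ W)` and `log |V : W|`.

We show that for every `λ ≥ 0` the minimum of `wexp μ A - λ lsize A` over all nonempty sets `A` is
attained at a subgroup, and that the logarithmic isoperimetric constant `min_A wexp μ A / lsize A` is
attained at a subgroup. For groups of exponent 4 this holds for ALL undirected Cayley graphs. For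
the cyclic group of order 6 it is false (`six_fails`). More generally `V` can be a finite module over a commutative
ring with a non-unit `π` such that every element is a unit or a multiple of `π` (for example a finite
chain ring), and `μ` invariant under the units; for finite fields this is the starting result
`LogIsoperimetry`.

The new point is an inequality for the subsets of a cyclic module (`Pool/Agent/U397/PG/RealLemma.lean`
and `Block.lean`): if `C ⊃ C' = π C ⊇ D` are cyclic modules then the entropy of a random point of `A`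
modulo `D`, given its class modulo `C`, is at least `log |C : D|` times the probability that a random
generator of `C` leads from a random point of `A` into `A`.
-/

namespace Pool.Agent.Results.MP_8d8c46_lc.PGroupIsoperimetry

open Finset
open scoped Classical
open Pool.Agent.Results.MP_8d8c46_lc.CayleyTest
open Pool.Agent

noncomputable section

/-- The set of the elements with the property `P`. -/
def car {V : Type} [Fintype V] (P : V → Prop) : Finset V := univ.filter P

/-- The expansion of `A` for the weight `μ` on the translations. -/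
def wexp {V : Type} [AddCommGroup V] [Fintype V] (μ : V → ℝ) (A : Finset V) : ℝ :=
  (∑ s, μ s * ((A.filter fun x => x + s ∉ A).card : ℝ)) / A.card

/-- The logarithm of the inverse density of `A`. -/
def lsize {V : Type} [Fintype V] (A : Finset V) : ℝ :=
  Real.log (Fintype.card V / A.card)

section basic

variable {V : Type} [AddCommGroup V] [Fintype V]

lemma lsize_nonneg (A : Finset V) (hA : A.Nonempty) : 0 ≤ lsize A := by
  have hA0 : (0 : ℝ) < A.card := by exact_mod_cast hA.card_pos
  unfold lsize
  refine Real.log_nonneg ?_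
  rw [le_div_iff₀ hA0, one_mul]
  exact_mod_cast Finset.card_le_univ A

lemma lsize_pos (A : Finset V) (hA : A.Nonempty) (hA' : A ≠ univ) : 0 < lsize A := by
  have hA0 : (0 : ℝ) < A.card := by exact_mod_cast hA.card_pos
  unfold lsize
  refine Real.log_pos ?_
  rw [lt_div_iff₀ hA0, one_mul]
  have : A.card < Fintype.card V := (Finset.card_lt_iff_ne_univ A).mpr hA'
  exact_mod_cast this

lemma wexp_nonneg (μ : V → ℝ) (hμ : ∀ s, 0 ≤ μ s) (A : Finset V) : 0 ≤ wexp μ A := by
  unfold wexp
  refine div_nonneg (Finset.sum_nonneg fun s _ => mul_nonneg (hμ s) (Nat.cast_nonneg _))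
    (Nat.cast_nonneg _)

/-- from the Lagrangian form to the ratio form -/
lemma iff_of_min {ι : Type} (c : ι → Finset V) (hc : ∀ i, (c i).Nonempty) (μ : V → ℝ)
    (hμ : ∀ s, 0 ≤ μ s)
    (h : ∀ lam : ℝ, 0 ≤ lam → ∃ i, ∀ A : Finset V, A.Nonempty →
      wexp μ (c i) - lam * lsize (c i) ≤ wexp μ A - lam * lsize A) (k : ℝ) :
    (∀ A : Finset V, A.Nonempty → k * lsize A ≤ wexp μ A) ↔ ∀ i, k * lsize (c i) ≤ wexp μ (c i) := by
  constructor
  · intro h' i
    exact h' _ (hc i)
  · intro h' A hA
    rcases lt_or_ge k 0 with hk | hk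
    · exact (mul_nonpos_of_nonpos_of_nonneg hk.le (lsize_nonneg A hA)).trans (wexp_nonneg μ hμ A)
    · obtain ⟨i, hi⟩ := h k hk
      have h1 := hi A hA
      have h2 := h' i
      linarith

lemma ratio_of_min {ι : Type} [Finite ι] (c : ι → Finset V) (hc : ∀ i, (c i).Nonempty)
    (hne : ∃ i, c i ≠ univ) (μ : V → ℝ) (hμ : ∀ s, 0 ≤ μ s)
    (h : ∀ lam : ℝ, 0 ≤ lam → ∃ i, ∀ A : Finset V, A.Nonempty →
      wexp μ (c i) - lam * lsize (c i) ≤ wexp μ A - lam * lsize A) :
    ∃ i, c i ≠ univ ∧ ∀ A : Finset V, A.Nonempty → A ≠ univ →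
      wexp μ (c i) / lsize (c i) ≤ wexp μ A / lsize A := by
  have : Fintype ι := Fintype.ofFinite ι
  have hne' : (Finset.univ.filter fun i => c i ≠ univ).Nonempty := by
    obtain ⟨i, hi⟩ := hne
    exact ⟨i, by simpa using hi⟩
  obtain ⟨i, hi, hmin⟩ := Finset.exists_min_image _ (fun i => wexp μ (c i) / lsize (c i)) hne'
  simp only [Finset.mem_filter, Finset.mem_univ, true_and] at hi hmin
  refine ⟨i, hi, fun A hA hA' => ?_⟩
  rw [le_div_iff₀ (lsize_pos A hA hA')]
  refine (iff_of_min c hc μ hμ h (wexp μ (c i) / lsize (c i))).mpr (fun j => ?_) A hA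
  by_cases hj : c j = univ
  · rw [hj]
    have h1 : lsize (univ : Finset V) = 0 := by
      have hV : (0 : ℝ) < Fintype.card V := by exact_mod_cast Fintype.card_pos
      unfold lsize
      rw [Finset.card_univ, div_self hV.ne', Real.log_one]
    rw [h1, mul_zero]
    exact wexp_nonneg μ hμ _
  · have := hmin j hj
    rwa [le_div_iff₀ (lsize_pos (c j) (hc j) hj)] at this

end basic

section modules

variable {R V : Type} [CommRing R] [AddCommGroup V] [Module R V] [Fintype V]

lemma car_nonempty (W : Submodule R V) : (car fun x => x ∈ W).Nonempty := ⟨0, by simp [car]⟩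

lemma car_card (W : Submodule R V) : (car fun x => x ∈ W).card = U397.PG.sz W := rfl

lemma wexp_car (μ : V → ℝ) (W : Submodule R V) :
    wexp μ (car fun x => x ∈ W) = ∑ s ∈ univ.filter (fun s => s ∉ W), μ s := by
  have hc : (0 : ℝ) < (car fun x => x ∈ W).card := by exact_mod_cast (car_nonempty W).card_pos
  have h1 : ∀ s, μ s * ((((car fun x => x ∈ W)).filter fun x => x + s ∉ (car fun x => x ∈ W)).card : ℝ)
      = if s ∉ W then μ s * (car fun x => x ∈ W).card else 0 := by
    intro s
    by_cases h : s ∈ W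
    · rw [if_neg (not_not.2 h)]
      have : ((car fun x => x ∈ W).filter fun x => x + s ∉ (car fun x => x ∈ W)) = ∅ := by
        rw [Finset.filter_eq_empty_iff]
        intro x hx
        simp only [car, Finset.mem_filter, Finset.mem_univ, true_and, not_not] at hx ⊢
        exact W.add_mem hx h
      rw [this]; simp
    · rw [if_pos h]
      have : ((car fun x => x ∈ W).filter fun x => x + s ∉ (car fun x => x ∈ W))
          = (car fun x => x ∈ W) := by
        rw [Finset.filter_eq_self]
        intro x hx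
        simp only [car, Finset.mem_filter, Finset.mem_univ, true_and] at hx ⊢
        intro hc
        apply h
        have := W.sub_mem hc hx
        simpa using this
      rw [this]
  unfold wexp
  simp_rw [h1]
  rw [← Finset.sum_filter, ← Finset.sum_mul, mul_div_assoc, div_self hc.ne', mul_one]

lemma card_mul_index (W : Submodule R V) :
    ((car fun x => x ∈ W).card : ℝ) * (W.toAddSubgroup.index : ℝ) = Fintype.card V := by
  have h := AddSubgroup.card_mul_index W.toAddSubgroup
  rw [Nat.card_eq_fintype_card (α := V)] at h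
  rw [car_card, U397.PG.sz_eq]
  exact_mod_cast h

lemma lsize_car (W : Submodule R V) :
    lsize (car fun x => x ∈ W) = Real.log (W.toAddSubgroup.index : ℝ) := by
  have hc : (0 : ℝ) < (car fun x => x ∈ W).card := by exact_mod_cast (car_nonempty W).card_pos
  unfold lsize
  rw [← card_mul_index W, mul_div_cancel_left₀ _ hc.ne']

/-- the Lagrangian form for modules -/
lemma lagrange (π : R) (hπ : ¬ IsUnit π) (hR : ∀ r : R, IsUnit r ∨ π ∣ r) (μ : V → ℝ)
    (hμ : ∀ s, 0 ≤ μ s) (hinv : ∀ (u : R) (s : V), IsUnit u → μ (u • s) = μ s)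
    (lam : ℝ) (hlam : 0 ≤ lam) :
    ∃ W : Submodule R V, ∀ A : Finset V, A.Nonempty →
      wexp μ (car fun x => x ∈ W) - lam * lsize (car fun x => x ∈ W) ≤
        wexp μ A - lam * lsize A := by
  obtain ⟨W, hW⟩ := U397.PG.main π hπ hR μ hμ hinv lam hlam
  refine ⟨W, fun A hA => ?_⟩
  have h := hW A hA
  unfold U397.PG.g U397.PG.cod at h
  have hV : (0 : ℝ) < Fintype.card V := by exact_mod_cast Fintype.card_pos
  have hc : (0 : ℝ) < (car fun x => x ∈ W).card := by exact_mod_cast (car_nonempty W).card_pos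
  have e : lsize (car fun x => x ∈ W) = Real.log (Fintype.card V) - Real.log (U397.PG.sz W) := by
    unfold lsize
    rw [Real.log_div hV.ne' hc.ne', car_card]
  rw [wexp_car, e]
  exact h

end modules

section groups

variable {V : Type} [AddCommGroup V] [Fintype V]

/-- the Lagrangian form for abelian `p`-groups -/
lemma lagrange_p (p n : ℕ) (hp : p.Prime) (hV : ∀ x : V, p ^ n • x = 0) (μ : V → ℝ)
    (hμ : ∀ s, 0 ≤ μ s) (hinv : ∀ (c : ℕ) (s : V), ¬ p ∣ c → μ (c • s) = μ s)
    (lam : ℝ) (hlam : 0 ≤ lam) :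
    ∃ W : AddSubgroup V, ∀ A : Finset V, A.Nonempty →
      wexp μ (car fun x => x ∈ W) - lam * lsize (car fun x => x ∈ W) ≤
        wexp μ A - lam * lsize A := by
  have hV' : ∀ x : V, p ^ (n + 1) • x = 0 := by
    intro x
    rw [pow_succ, mul_comm, mul_nsmul', hV x]
    simp
  let _ : Module (ZMod (p ^ (n + 1))) V := AddCommGroup.zmodModule hV'
  have : NeZero (p ^ (n + 1)) := ⟨pow_ne_zero _ hp.ne_zero⟩
  have hπ : ¬ IsUnit ((p : ℕ) : ZMod (p ^ (n + 1))) := by
    rw [ZMod.isUnit_iff_coprime]
    intro h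
    have h2 := (Nat.coprime_pow_right_iff (Nat.succ_pos n) p p).1 h
    rw [Nat.coprime_self] at h2
    exact hp.one_lt.ne' h2
  have hR : ∀ r : ZMod (p ^ (n + 1)), IsUnit r ∨ ((p : ℕ) : ZMod (p ^ (n + 1))) ∣ r := by
    intro r
    by_cases h : p ∣ r.val
    · right
      obtain ⟨m, hm⟩ := h
      refine ⟨(m : ZMod (p ^ (n + 1))), ?_⟩
      rw [← Nat.cast_mul, ← hm, ZMod.natCast_zmod_val]
    · left
      rw [← ZMod.natCast_zmod_val r, ZMod.isUnit_iff_coprime]
      exact Nat.Coprime.pow_right _ (((Nat.Prime.coprime_iff_not_dvd hp).2 h).symm)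
  have hinv' : ∀ (u : ZMod (p ^ (n + 1))) (s : V), IsUnit u → μ (u • s) = μ s := by
    intro u s hu
    have h1 : u • s = u.val • s := by
      conv_lhs => rw [← ZMod.natCast_zmod_val u]
      rw [Nat.cast_smul_eq_nsmul]
    rw [h1]
    refine hinv _ s ?_
    rw [← ZMod.natCast_zmod_val u, ZMod.isUnit_iff_coprime] at hu
    have h2 := (Nat.coprime_pow_right_iff (Nat.succ_pos n) _ _).1 hu
    exact (Nat.Prime.coprime_iff_not_dvd hp).1 h2.symm
  obtain ⟨W, hW⟩ := lagrange (R := ZMod (p ^ (n + 1))) _ hπ hR μ hμ hinv' lam hlam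
  exact ⟨W.toAddSubgroup, hW⟩

lemma gcar_nonempty (W : AddSubgroup V) : (car fun x => x ∈ W).Nonempty := ⟨0, by simp [car]⟩

lemma gcar_eq (W : AddSubgroup V) :
    (car fun x => x ∈ W) = car fun x => x ∈ (AddSubgroup.toIntSubmodule W) := rfl

lemma gwexp_car (μ : V → ℝ) (W : AddSubgroup V) :
    wexp μ (car fun x => x ∈ W) = ∑ s ∈ univ.filter (fun s => s ∉ W), μ s := by
  rw [gcar_eq, wexp_car]; rfl

lemma glsize_car (W : AddSubgroup V) :
    lsize (car fun x => x ∈ W) = Real.log (W.index : ℝ) := by
  rw [gcar_eq, lsize_car]; rfl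

lemma gcar_univ {W : AddSubgroup V} : (car fun x => x ∈ W) = univ ↔ W = ⊤ := by
  rw [AddSubgroup.eq_top_iff']
  unfold car
  rw [Finset.filter_eq_self]
  simp

lemma car_univ {R : Type} [CommRing R] [Module R V] {W : Submodule R V} :
    (car fun x => x ∈ W) = univ ↔ W = ⊤ := by
  rw [Submodule.eq_top_iff']
  unfold car
  rw [Finset.filter_eq_self]
  simp

/-- the conclusion for Cayley graphs -/
lemma cayley (p n : ℕ) (hp : p.Prime) (hV : ∀ x : V, p ^ n • x = 0)
    (S : Finset V) (hS : ∀ s ∈ S, -s ∈ S) (h0 : (0 : V) ∉ S) (hne : S.Nonempty)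
    (hinv : ∀ (c : ℕ) (s : V), ¬ p ∣ c → s ∈ S → c • s ∈ S) (eta del : ℝ) (hdel0 : 0 < del)
    (hdel : del < 1) (hyes : SseYes (cay S hS h0) S.card eta del) :
    ∃ W : AddSubgroup V, W ≠ ⊤ ∧
      expansion (cay S hS h0) S.card (car fun x => x ∈ W) ≤
        eta * (Real.log W.index / Real.log (1 / del)) := by
  obtain ⟨A, hA, hAc, hle⟩ := hyes
  have hSc : (0 : ℝ) < S.card := by exact_mod_cast hne.card_pos
  let μ : V → ℝ := fun s => if s ∈ S then (1 : ℝ) / S.card else 0
  have hμ : ∀ s, 0 ≤ μ s := by
    intro s; simp only [μ]; split_ifs <;> positivity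
  have hmem : ∀ (c : ℕ) (s : V), ¬ p ∣ c → (c • s ∈ S ↔ s ∈ S) := by
    intro c s hc
    constructor
    · intro h
      have hcop : Nat.Coprime c (p ^ n) :=
        Nat.Coprime.pow_right _ (((Nat.Prime.coprime_iff_not_dvd hp).2 hc).symm)
      rcases Nat.eq_zero_or_pos n with hn | hn
      · subst hn
        have h1 : s = 0 := by simpa using hV s
        subst h1
        simpa using h
      have hpn : 1 < p ^ n := Nat.one_lt_pow hn.ne' hp.one_lt
      obtain ⟨d, -, hd⟩ := Nat.exists_mul_mod_eq_one_of_coprime hcop hpn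
      have hd' : d * c = p ^ n * (c * d / p ^ n) + 1 := by
        have := Nat.div_add_mod (c * d) (p ^ n)
        rw [hd] at this
        rw [mul_comm d c]; exact this.symm
      have hd1 : ¬ p ∣ d := by
        intro hpd
        have h2 : p ∣ c * d := Dvd.dvd.mul_left hpd c
        have h3 : p ∣ p ^ n * (c * d / p ^ n) := Dvd.dvd.mul_right (dvd_pow_self p hn.ne') _
        rw [mul_comm c d, hd'] at h2
        have h4 := (Nat.dvd_add_right h3).1 h2
        exact hp.one_lt.ne' (Nat.dvd_one.1 h4)
      have h5 := hinv d _ hd1 h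
      rwa [← mul_nsmul', hd', add_nsmul, one_nsmul, mul_nsmul, hV, nsmul_zero, zero_add] at h5
    · exact hinv c s hc
  have hμinv : ∀ (c : ℕ) (s : V), ¬ p ∣ c → μ (c • s) = μ s := by
    intro c s hc
    simp only [μ, hmem c s hc]
  have hexp : ∀ A : Finset V, expansion (cay S hS h0) S.card A = wexp μ A := by
    intro A
    unfold expansion wexp
    rw [cut_cay, ← div_div, Finset.sum_div]
    congr 1
    refine Finset.sum_congr rfl fun s _ => ?_
    simp only [μ, H562R2.CayleyIso.outCount]
    by_cases h : s ∈ S <;> simp [h]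
    ring
  have hVc : (0 : ℝ) < Fintype.card V := by exact_mod_cast Fintype.card_pos
  have hls : lsize A = Real.log (1 / del) := by
    unfold lsize
    rw [hAc]
    congr 1
    field_simp
  have hlog : 0 < Real.log (1 / del) := Real.log_pos (by rw [lt_div_iff₀ hdel0]; linarith)
  have hAu : A ≠ univ := by
    rintro rfl
    rw [Finset.card_univ] at hAc
    have : (1 - del) * (Fintype.card V : ℝ) = 0 := by linarith
    rcases mul_eq_zero.1 this with h | h
    · linarith
    · exact hVc.ne' h
  have hnt : ∃ W : AddSubgroup V, (car fun x => x ∈ W) ≠ univ := by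
    refine ⟨⊥, fun h => ?_⟩
    rw [gcar_univ] at h
    obtain ⟨s, hs⟩ := hne
    have : s ∈ (⊥ : AddSubgroup V) := by rw [h]; trivial
    rw [AddSubgroup.mem_bot] at this
    exact h0 (this ▸ hs)
  obtain ⟨W, hW, hmin⟩ := ratio_of_min (fun W : AddSubgroup V => car fun x => x ∈ W)
    gcar_nonempty hnt μ hμ (fun lam hlam => lagrange_p p n hp hV μ hμ hμinv lam hlam)
  refine ⟨W, fun h => hW (gcar_univ.2 h), ?_⟩
  rw [hexp] at hle ⊢
  have h := hmin A hA hAu
  have hWpos := lsize_pos _ (gcar_nonempty W) hW
  rw [hls, div_le_iff₀ hWpos, glsize_car] at h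
  refine h.trans ?_
  rw [glsize_car] at hWpos
  have h2 : wexp μ A / Real.log (1 / del) * Real.log W.index ≤
      eta / Real.log (1 / del) * Real.log W.index :=
    mul_le_mul_of_nonneg_right (div_le_div_of_nonneg_right hle hlog.le) hWpos.le
  refine h2.trans (le_of_eq ?_)
  ring

end groups

/-- For the cyclic group of order `6` and `S = {1, -1}` (a union of sets of generators of cyclic
subgroups) the result is false: there is `c` such that `c lsize W ≤ wexp μ W` for all subgroups but
not for all sets. -/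
lemma six_fails : ∃ c : ℝ, (∀ W : AddSubgroup (ZMod 6), c * lsize (car fun x => x ∈ W) ≤
      wexp (fun s : ZMod 6 => if s = 1 ∨ s = -1 then (1 / 2 : ℝ) else 0) (car fun x => x ∈ W)) ∧
    ∃ A : Finset (ZMod 6), A.Nonempty ∧
      wexp (fun s : ZMod 6 => if s = 1 ∨ s = -1 then (1 / 2 : ℝ) else 0) A < c * lsize A := by
  have hl6 : 0 < Real.log 6 := Real.log_pos (by norm_num)
  refine ⟨1 / Real.log 6, fun W => ?_, {0, 1}, ⟨0, by simp⟩, ?_⟩
  · rw [gwexp_car, glsize_car]
    by_cases hW : W = ⊤
    · subst hW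
      simp only [AddSubgroup.index_top, Nat.cast_one, Real.log_one, mul_zero]
      refine Finset.sum_nonneg fun s _ => ?_
      split_ifs <;> norm_num
    · have h1 : (1 : ZMod 6) ∉ W := by
        intro h
        apply hW
        rw [AddSubgroup.eq_top_iff']
        intro x
        have : x = x.val • (1 : ZMod 6) := by
          rw [nsmul_one, ZMod.natCast_zmod_val]
        rw [this]
        exact W.nsmul_mem h _
      have h2 : (-1 : ZMod 6) ∉ W := fun h => h1 (by simpa using W.neg_mem h)
      have h3 : (1 : ℝ) ≤ ∑ s ∈ univ.filter (fun s : ZMod 6 => s ∉ W),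
          (if s = 1 ∨ s = -1 then (1 / 2 : ℝ) else 0) := by
        have hsub : ({1, -1} : Finset (ZMod 6)) ⊆ univ.filter (fun s : ZMod 6 => s ∉ W) := by
          intro s hs
          rw [Finset.mem_insert, Finset.mem_singleton] at hs
          rw [Finset.mem_filter]
          refine ⟨Finset.mem_univ _, ?_⟩
          rcases hs with rfl | rfl
          · exact h1
          · exact h2
        have hne : (1 : ZMod 6) ≠ -1 := by decide
        calc (1 : ℝ) = ∑ s ∈ ({1, -1} : Finset (ZMod 6)),
              (if s = 1 ∨ s = -1 then (1 / 2 : ℝ) else 0) := by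
              rw [Finset.sum_pair hne]; norm_num
          _ ≤ _ := Finset.sum_le_sum_of_subset_of_nonneg hsub fun s _ _ => by
              split_ifs <;> norm_num
      have h4 : Real.log (W.index : ℝ) ≤ Real.log 6 := by
        have h5 : W.index ∣ 6 := by
          have := W.index_dvd_card
          rwa [Nat.card_eq_fintype_card, ZMod.card] at this
        have h6 : W.index ≤ 6 := Nat.le_of_dvd (by norm_num) h5
        have h7 : 0 < W.index := Nat.pos_of_dvd_of_pos h5 (by norm_num)
        exact Real.log_le_log (by exact_mod_cast h7) (by exact_mod_cast h6)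
      refine le_trans ?_ h3
      rw [one_div_mul_eq_div, div_le_one hl6]
      exact h4
  · have hcard : (({0, 1} : Finset (ZMod 6)).card : ℝ) = 2 := by
      have : ({0, 1} : Finset (ZMod 6)).card = 2 := by decide
      rw [this]; norm_num
    have hw : wexp (fun s : ZMod 6 => if s = 1 ∨ s = -1 then (1 / 2 : ℝ) else 0) {0, 1}
        = 1 / 2 := by
      unfold wexp
      rw [hcard]
      have e1 : ((({0, 1} : Finset (ZMod 6)).filter fun x => x + 1 ∉ ({0, 1} : Finset (ZMod 6))).card
          : ℝ) = 1 := by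
        have : (({0, 1} : Finset (ZMod 6)).filter fun x => x + 1 ∉ ({0, 1} : Finset (ZMod 6))).card
          = 1 := by decide
        rw [this]; norm_num
      have e2 : ((({0, 1} : Finset (ZMod 6)).filter fun x => x + -1 ∉ ({0, 1} : Finset (ZMod 6))).card
          : ℝ) = 1 := by
        have : (({0, 1} : Finset (ZMod 6)).filter fun x => x + -1 ∉ ({0, 1} : Finset (ZMod 6))).card
          = 1 := by decide
        rw [this]; norm_num
      have e3 : (∑ s : ZMod 6, (if s = 1 ∨ s = -1 then (1 / 2 : ℝ) else 0) *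
          ((({0, 1} : Finset (ZMod 6)).filter fun x => x + s ∉ ({0, 1} : Finset (ZMod 6))).card : ℝ))
          = ∑ s ∈ ({1, -1} : Finset (ZMod 6)), (if s = 1 ∨ s = -1 then (1 / 2 : ℝ) else 0) *
          ((({0, 1} : Finset (ZMod 6)).filter fun x => x + s ∉ ({0, 1} : Finset (ZMod 6))).card : ℝ) := by
        symm
        refine Finset.sum_subset (Finset.subset_univ _) fun s _ hs => ?_
        rw [Finset.mem_insert, Finset.mem_singleton] at hs
        rw [if_neg hs, zero_mul]
      have hne : (1 : ZMod 6) ≠ -1 := by decide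
      rw [Finset.sum_pair hne, e1, e2] at e3
      have e4 : (∑ s : ZMod 6, (fun s => if s = 1 ∨ s = -1 then (1 / 2 : ℝ) else 0) s *
          ((({0, 1} : Finset (ZMod 6)).filter fun x => x + s ∉ ({0, 1} : Finset (ZMod 6))).card : ℝ))
          = 1 := by
        rw [e3]; norm_num
      refine Eq.trans ?_ (congrArg (fun t : ℝ => t / 2) e4)
      refine congrArg (fun t : ℝ => t / 2) (Finset.sum_congr rfl fun s _ => ?_)
      congr!
    rw [hw]
    unfold lsize
    rw [hcard, ZMod.card]
    have h1 : Real.log ((6 : ℕ) / 2 : ℝ) = Real.log 3 := by norm_num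
    rw [h1, one_div_mul_eq_div, lt_div_iff₀ hl6]
    have h2 : Real.log 6 < Real.log (3 ^ 2) := Real.log_lt_log (by norm_num) (by norm_num)
    rw [Real.log_pow] at h2
    push_cast at h2
    linarith

/-- **Result.**

(A) Let `R` be a commutative ring with a non-unit `π` such that every element is a unit or a multiple
of `π`, let `V` be a finite `R`-module and `μ ≥ 0` a weight on `V` which is invariant under the units
of `R`. Then for submodules `W` one has `wexp μ W = μ(V ∖ W)`, `lsize W = log |V : W|`; for every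
`λ ≥ 0` there is a submodule at which `wexp μ A - λ lsize A` is minimal among all nonempty sets `A`;
`c lsize A ≤ wexp μ A` holds for all sets if it holds for all submodules; and the minimum of
`wexp μ A / lsize A` over all nonempty `A ≠ V` is attained at a submodule.

(B) The same for the subgroups of a finite abelian group of exponent dividing `p ^ n`, `p` prime, and
weights with `μ(c s) = μ(s)` for all integers `c` not divisible by `p`.

(C) Let `G = Cay(V, S)` for such a group and a nonempty symmetric set `S` of nonzero elements which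
is closed under the multiplication by the integers not divisible by `p`. If `Φ_G(A) ≤ η` for a
nonempty set `A` with `|A| = δ |V|`, `0 < δ < 1` (a yes instance of `SSE(η, δ)`), then
`Φ_G(W) ≤ η log |V : W| / log (1 / δ)` for some proper subgroup `W`.

(D) If `4 x = 0` for all `x ∈ V`, then (C) holds for ALL undirected Cayley graphs of `V`. -/
theorem result :
    (∀ (R V : Type) [CommRing R] [AddCommGroup V] [Module R V] [Fintype V] (π : R), ¬ IsUnit π →
      (∀ r : R, IsUnit r ∨ π ∣ r) → ∀ μ : V → ℝ, (∀ s, 0 ≤ μ s) →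
      (∀ (u : R) (s : V), IsUnit u → μ (u • s) = μ s) →
      (∀ W : Submodule R V, wexp μ (car fun x => x ∈ W) = ∑ s ∈ univ.filter (fun s => s ∉ W), μ s ∧
        lsize (car fun x => x ∈ W) = Real.log W.toAddSubgroup.index) ∧
      (∀ lam : ℝ, 0 ≤ lam → ∃ W : Submodule R V, ∀ A : Finset V, A.Nonempty →
        wexp μ (car fun x => x ∈ W) - lam * lsize (car fun x => x ∈ W) ≤
          wexp μ A - lam * lsize A) ∧
      (∀ c : ℝ, (∀ A : Finset V, A.Nonempty → c * lsize A ≤ wexp μ A) ↔
        ∀ W : Submodule R V, c * lsize (car fun x => x ∈ W) ≤ wexp μ (car fun x => x ∈ W)) ∧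
      (Nontrivial V → ∃ W : Submodule R V, W ≠ ⊤ ∧ ∀ A : Finset V, A.Nonempty → A ≠ univ →
        wexp μ (car fun x => x ∈ W) / lsize (car fun x => x ∈ W) ≤ wexp μ A / lsize A)) ∧
    (∀ (V : Type) [AddCommGroup V] [Fintype V] (p n : ℕ), p.Prime → (∀ x : V, p ^ n • x = 0) →
      ∀ μ : V → ℝ, (∀ s, 0 ≤ μ s) → (∀ (c : ℕ) (s : V), ¬ p ∣ c → μ (c • s) = μ s) →
      (∀ W : AddSubgroup V, wexp μ (car fun x => x ∈ W) = ∑ s ∈ univ.filter (fun s => s ∉ W), μ s ∧
        lsize (car fun x => x ∈ W) = Real.log W.index) ∧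
      (∀ lam : ℝ, 0 ≤ lam → ∃ W : AddSubgroup V, ∀ A : Finset V, A.Nonempty →
        wexp μ (car fun x => x ∈ W) - lam * lsize (car fun x => x ∈ W) ≤
          wexp μ A - lam * lsize A) ∧
      (∀ c : ℝ, (∀ A : Finset V, A.Nonempty → c * lsize A ≤ wexp μ A) ↔
        ∀ W : AddSubgroup V, c * lsize (car fun x => x ∈ W) ≤ wexp μ (car fun x => x ∈ W)) ∧
      (Nontrivial V → ∃ W : AddSubgroup V, W ≠ ⊤ ∧ ∀ A : Finset V, A.Nonempty → A ≠ univ →
        wexp μ (car fun x => x ∈ W) / lsize (car fun x => x ∈ W) ≤ wexp μ A / lsize A)) ∧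
    (∀ (V : Type) [AddCommGroup V] [Fintype V] (p n : ℕ), p.Prime → (∀ x : V, p ^ n • x = 0) →
      ∀ (S : Finset V) (hS : ∀ s ∈ S, -s ∈ S) (h0 : (0 : V) ∉ S), S.Nonempty →
      (∀ (c : ℕ) (s : V), ¬ p ∣ c → s ∈ S → c • s ∈ S) → ∀ eta del : ℝ, 0 < del → del < 1 →
      SseYes (cay S hS h0) S.card eta del →
      ∃ W : AddSubgroup V, W ≠ ⊤ ∧ expansion (cay S hS h0) S.card (car fun x => x ∈ W) ≤
        eta * (Real.log W.index / Real.log (1 / del))) ∧
    (∀ (V : Type) [AddCommGroup V] [Fintype V], (∀ x : V, 4 • x = 0) →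
      ∀ (S : Finset V) (hS : ∀ s ∈ S, -s ∈ S) (h0 : (0 : V) ∉ S), S.Nonempty →
      ∀ eta del : ℝ, 0 < del → del < 1 → SseYes (cay S hS h0) S.card eta del →
      ∃ W : AddSubgroup V, W ≠ ⊤ ∧ expansion (cay S hS h0) S.card (car fun x => x ∈ W) ≤
        eta * (Real.log W.index / Real.log (1 / del))) := by
  refine ⟨?_, ?_, ?_, ?_⟩
  · intro R V _ _ _ _ π hπ hR μ hμ hinv
    have hl := lagrange π hπ hR μ hμ hinv
    refine ⟨fun W => ⟨wexp_car μ W, lsize_car W⟩, hl,
      iff_of_min (fun W : Submodule R V => car fun x => x ∈ W) car_nonempty μ hμ hl, ?_⟩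
    intro hnt
    obtain ⟨W, hW, hmin⟩ := ratio_of_min (fun W : Submodule R V => car fun x => x ∈ W) car_nonempty
      ⟨⊥, fun h => bot_ne_top (car_univ.1 h)⟩ μ hμ hl
    exact ⟨W, fun h => hW (car_univ.2 h), hmin⟩
  · intro V _ _ p n hp hV μ hμ hinv
    have hl := lagrange_p p n hp hV μ hμ hinv
    refine ⟨fun W => ⟨gwexp_car μ W, glsize_car W⟩, hl,
      iff_of_min (fun W : AddSubgroup V => car fun x => x ∈ W) gcar_nonempty μ hμ hl, ?_⟩
    intro hnt
    obtain ⟨W, hW, hmin⟩ := ratio_of_min (fun W : AddSubgroup V => car fun x => x ∈ W) gcar_nonempty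
      ⟨⊥, fun h => bot_ne_top (gcar_univ.1 h)⟩ μ hμ hl
    exact ⟨W, fun h => hW (gcar_univ.2 h), hmin⟩
  · intro V _ _ p n hp hV S hS h0 hne hinv eta del hdel0 hdel hyes
    exact cayley p n hp hV S hS h0 hne hinv eta del hdel0 hdel hyes
  · intro V _ _ hV S hS h0 hne eta del hdel0 hdel hyes
    refine cayley 2 2 Nat.prime_two (fun x => by simpa using hV x) S hS h0 hne ?_ eta del hdel0 hdel
      hyes
    intro c s hc hs
    have hmod : c = 4 * (c / 4) + c % 4 := (Nat.div_add_mod c 4).symm
    have h4 : c • s = (c % 4) • s := by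
      conv_lhs => rw [hmod]
      rw [add_nsmul, mul_nsmul, hV, nsmul_zero, zero_add]
    rw [h4]
    have hlt : c % 4 < 4 := Nat.mod_lt _ (by norm_num)
    have hcases : c % 4 = 1 ∨ c % 4 = 3 := by omega
    rcases hcases with h | h
    · rw [h, one_nsmul]; exact hs
    · rw [h]
      have : (3 : ℕ) • s = -s := by
        rw [eq_neg_iff_add_eq_zero]
        have := hV s
        rw [show (4 : ℕ) = 3 + 1 by norm_num, add_nsmul, one_nsmul] at this
        exact this
      rw [this]; exact hS s hs

end

end Pool.Agent.Results.MP_8d8c46_lc.PGroupIsoperimetry
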