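import Pool.Agent.U16.SSE.Hard

/-!
# The small-set expansion conjecture: all small densities, and disjunctive reductions

The definitions used in the statement:

* in `Pool/Agent/U16/SSE/Prom.lean`: `cut` (the number of edges between a set and its complement),
  `Regular`, `code` (the bit string which describes a regular graph), `Yes`, `No` (the yes and the
  no instances of the problem `SSE(η, δ)`);
* in `Pool/Agent/U16/SSE/Main.lean`: `DisjTT` (disjunctive truth-table reductions with `k` queries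
  to promise problems);
* in `Pool/Agent/U16/UGT/Main.lean`: `Red` (many-one reductions to promise problems);
* in `Pool/Agent/NPC/Defs.lean`: `PolyTime`, `InNP`.

Idea of the proof. In a no instance also all functions with values in `[0, 1]` and sum at most `δ n`
have small energy, up to a factor `3`: a multilinear function is maximal at a vertex of the cube,
and larger sets are treated by averaging over their subsets. This property survives blow-ups,
disjoint unions and the replacement of multiple edges by sparse pseudorandom bipartite graphs (given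
by `y + y' + x x' < m` modulo a prime). So graphs with different densities and degrees can be made
comparable, joined, and padded with a pseudorandom bipartite graph of any size.
-/

set_option autoImplicit false

namespace Pool.Agent.Results.MP_8d8c46_lc.SmallSets

open Pool.Agent.NPC Pool.Agent.U16.SSE
open Pool.Agent.U16.UGT (Red inNPP_SAT)

/-- The promise problem is hard for `NP` under many-one reductions. -/
def Hard (Y N : Set (List Bool)) : Prop := ∀ L, InNP L → Red L Y N

/-- The small-set expansion conjecture. -/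
def Conjecture : Prop :=
  ∀ η : ℚ, 0 < η → η < 1 / 2 → ∃ δ : ℚ, 0 < δ ∧ δ ≤ 1 / 2 ∧ Hard (Yes η δ) (No η δ)

/-- The conjecture for all sufficiently small densities. -/
def AllSmall : Prop :=
  ∀ η : ℚ, 0 < η → η < 1 / 2 → ∃ δ₀ : ℚ, 0 < δ₀ ∧ ∀ δ : ℚ, 0 < δ → δ ≤ δ₀ →
    Hard (Yes η δ) (No η δ)

/-- The conjecture for disjunctive truth-table reductions: every language in `NP` has, for every
`η' < 1 / 2`, such a reduction with `k` queries to the problems with some `η` with
`(3 k + 2) η ≤ η'` and some densities `δ i`. -/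
def Disjunctive : Prop :=
  ∀ L, InNP L → ∀ η' : ℚ, 0 < η' → η' < 1 / 2 → ∃ (k : ℕ) (η : ℚ) (δ : Fin k → ℚ), 0 < η ∧
    (3 * k + 2) * η ≤ η' ∧ (∀ i, 0 < δ i ∧ δ i ≤ 1 / 2) ∧
    DisjTT L (fun i => Yes η (δ i)) fun i => No η (δ i)

/-- The languages which reduce to small-set expansion (many-one) for all `η`. -/
def Easy : Set (Set (List Bool)) :=
  {L | ∀ η : ℚ, 0 < η → η < 1 / 2 → ∃ δ : ℚ, 0 < δ ∧ δ ≤ 1 / 2 ∧ Red L (Yes η δ) (No η δ)}

/-- (1) A disjunctive truth-table reduction with `k` queries to the problems `SSE(η, δ i)`, with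
`δ i ≤ η`, gives a many-one reduction to `SSE(η', δ')`, for `η' ≥ (3 k + 2) η` and every rational
`δ'` with `1 / δ' ≥ ∑ 1 / δ i + 1 / η`. (2) The small-set expansion conjecture is equivalent to its
form for all sufficiently small densities, and to its form for disjunctive truth-table reductions.
(3) A language in `Easy` reduces, for every `η`, to the problems with all sufficiently small
densities. (4) `Easy` is closed under disjunctive truth-table reductions with a bounded number of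
queries, and under unions. -/
theorem result :
    (∀ (k : ℕ) (L : Set (List Bool)) (η η' : ℚ) (δ : Fin k → ℚ) (δ' : ℚ), 0 < η → η < 1 / 2 →
      (∀ i, 0 < δ i) → (∀ i, δ i ≤ η) → (3 * k + 2) * η ≤ η' → 0 < δ' →
      ∑ i, 1 / δ i + 1 / η ≤ 1 / δ' →
      DisjTT L (fun i => Yes η (δ i)) (fun i => No η (δ i)) → Red L (Yes η' δ') (No η' δ')) ∧
    ((Conjecture ↔ AllSmall) ∧ (Conjecture ↔ Disjunctive)) ∧
    (∀ L ∈ Easy, ∀ η : ℚ, 0 < η → η < 1 / 2 → ∃ δ₀ : ℚ, 0 < δ₀ ∧
      ∀ δ : ℚ, 0 < δ → δ ≤ δ₀ → Red L (Yes η δ) (No η δ)) ∧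
    (∀ (k : ℕ) (L : Set (List Bool)) (L' : Fin k → Set (List Bool)), (∀ i, L' i ∈ Easy) →
      DisjTT L L' (fun i => (L' i)ᶜ) → L ∈ Easy) ∧
    (∀ L L' : Set (List Bool), L ∈ Easy → L' ∈ Easy → L ∪ L' ∈ Easy) := by
  have hk0 : ∀ k : ℕ, (0 : ℚ) < 3 * k + 2 := fun k => by positivity
  -- one query
  have one : ∀ (L : Set (List Bool)) (η : ℚ), 0 < η → η < 1 / 2 → ∀ δ : ℚ, 0 < δ → δ ≤ 1 / 2 →
      Red L (Yes (η / 5) δ) (No (η / 5) δ) → DisjTT (k := 1) L (fun _ => Yes (η / 5) δ)
        (fun _ => No (η / 5) δ) := fun L η h1 h2 δ _ _ h =>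
    disjTT_of_red (disjoint_yes_no (by linarith) δ) h
  -- the bound for one query depends only on `δ`
  have bound : ∀ η δ : ℚ, 0 < η → η < 1 / 2 → 0 < δ → δ ≤ 1 / 2 → ∃ δ₀ : ℚ, 0 < δ₀ ∧
      ∀ L, Red L (Yes (η / 5) δ) (No (η / 5) δ) → ∀ δ' : ℚ, 0 < δ' → δ' ≤ δ₀ →
        Red L (Yes η δ') (No η δ') := by
    intro η δ h1 h2 h3 h4
    obtain ⟨ε, hε⟩ : ∃ ε : ℚ, ε = if δ ≤ η / 5 then δ else η / 5 / 2 := ⟨_, rfl⟩
    have hε0 : 0 < ε := by
      rw [hε]
      split_ifs <;> linarith
    have hε1 : ε ≤ η / 5 := by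
      rw [hε]
      split_ifs <;> linarith
    obtain ⟨δ₀, h5, h6⟩ := exists_bound (k := 1) (η := η / 5) (δ := fun _ => ε) (by linarith)
      (fun _ => hε0)
    refine ⟨δ₀, h5, fun L hL δ' h7 h8 => ?_⟩
    have h9 := small_queries (by linarith) (by linarith) (fun _ => h3) (fun _ => by linarith)
      (one L η h1 h2 δ h3 h4 hL)
    rw [← hε] at h9
    refine red_of_disjTT (k := 1) (η := η / 5) (δ := fun _ => ε) (by linarith) (by linarith)
      (fun _ => hε0) (fun _ => hε1) ?_ h7 (h6 δ' h7 h8) h9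
    push_cast
    linarith
  have hsmall : Conjecture → AllSmall := by
    intro h η h1 h2
    obtain ⟨δ, h3, h4, h5⟩ := h (η / 5) (by linarith) (by linarith)
    obtain ⟨δ₀, h6, h7⟩ := bound η δ h1 h2 h3 h4
    exact ⟨δ₀, h6, fun δ' h8 h9 L hL => h7 L (h5 L hL) δ' h8 h9⟩
  have hclosed : ∀ (k : ℕ) (L : Set (List Bool)) (L' : Fin k → Set (List Bool)),
      (∀ i, L' i ∈ Easy) → DisjTT L L' (fun i => (L' i)ᶜ) → L ∈ Easy := by
    intro k L L' hL' h η h1 h2
    have h3 : 0 < η / (3 * k + 2) := div_pos h1 (hk0 k)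
    have h4 : (3 * (k : ℚ) + 2) * (η / (3 * k + 2)) = η := mul_div_cancel₀ _ (hk0 k).ne'
    have h5 : η / (3 * k + 2) ≤ η := by
      have : (0 : ℚ) ≤ k := Nat.cast_nonneg k
      rw [div_le_iff₀ (hk0 k)]
      nlinarith
    choose δ hδ hδ2 hred using fun i => hL' i (η / (3 * k + 2)) h3 (by linarith)
    obtain ⟨δ₀, h6, h7⟩ := red_of_disjTT' h3 (by linarith) h4.le hδ
      (fun i => by have := hδ2 i; linarith)
      (h.comp_red (fun i => disjoint_yes_no (by linarith) (δ i)) hred)
    exact ⟨min δ₀ (1 / 2), lt_min h6 (by norm_num), min_le_right _ _,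
      h7 _ (lt_min h6 (by norm_num)) (min_le_left _ _)⟩
  refine ⟨fun k L η η' δ δ' h1 h2 h3 h4 h5 h6 h7 h8 => red_of_disjTT h1 h2 h3 h4 h5 h6 h7 h8,
    ⟨⟨hsmall, fun h η h1 h2 => ?_⟩, ⟨fun h L hL η h1 h2 => ?_, fun h η h1 h2 => ?_⟩⟩,
    fun L hL η h1 h2 => ?_, hclosed, fun L L' h h' => ?_⟩
  · obtain ⟨δ₀, h3, h4⟩ := h η h1 h2
    exact ⟨min δ₀ (1 / 2), lt_min h3 (by norm_num), min_le_right _ _,
      h4 _ (lt_min h3 (by norm_num)) (min_le_left _ _)⟩
  · obtain ⟨δ, h3, h4, h5⟩ := h (η / 5) (by linarith) (by linarith)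
    refine ⟨1, η / 5, fun _ => δ, by linarith, ?_, fun _ => ⟨h3, h4⟩,
      one L η h1 h2 δ h3 h4 (h5 L hL)⟩
    push_cast
    linarith
  · obtain ⟨k, η₀, δ, h3, h4, h5, h6⟩ := h (lang SAT) inNPP_SAT η h1 h2
    have h7 : η₀ ≤ η := by
      have : (0 : ℚ) ≤ k := Nat.cast_nonneg k
      nlinarith
    obtain ⟨δ₀, h8, h9⟩ := red_of_disjTT' h3 (by
        have : (0 : ℚ) ≤ k := Nat.cast_nonneg k
        nlinarith) h4 (fun i => (h5 i).1) (fun i => by have := (h5 i).2; linarith) h6
    refine ⟨min δ₀ (1 / 2), lt_min h8 (by norm_num), min_le_right _ _, fun L hL => ?_⟩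
    exact Red.of_reduces (npHard_SAT L hL) (h9 _ (lt_min h8 (by norm_num)) (min_le_left _ _))
  · obtain ⟨δ, h3, h4, h5⟩ := hL (η / 5) (by linarith) (by linarith)
    obtain ⟨δ₀, h6, h7⟩ := bound η δ h1 h2 h3 h4
    exact ⟨δ₀, h6, fun δ' h8 h9 => h7 L h5 δ' h8 h9⟩
  · have h1 := hclosed 2 (L ∪ L') ![L, L'] (by
      intro i
      fin_cases i
      · exact h
      · exact h') (disjTT_union ![L, L'])
    exact h1

end Pool.Agent.Results.MP_8d8c46_lc.SmallSets
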