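import Pool.Agent.N631.FT.Two

/-!
# 2-to-1 games with perfect completeness: circuits with few NOT gates, programs with few tests

The starting result `MonotoneCircuits` of this problem is an unconditional form of the 2-to-1 games
conjecture with perfect completeness for randomised circuits of monotone real gates. Here the
circuits may contain some non-monotone gates. The games are those of `Pool.Agent.H589R3.DT.Two`:
`TGame U V q` has the alphabet `Fin q` on both sides and for every edge a map of labels, such that no
label has more than two preimages (an edge is satisfied if the label of its left vertex is mapped to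
the label of its right vertex); `TYes` means value one and `TNo δ` value at most `δ`.
The inputs `tInputs` of the circuits are the constraints (for each pair of vertices and each map of
labels a bit) and all real constants. The models are those of `Pool.Agent.N631.FT.Model`.

* Circuits (`NProg`): gates that apply arbitrary nondecreasing real functions of two arguments, and
  layers of non-monotone gates. A layer with `w` wires consists of arbitrarily many gates which
  compute arbitrary real functions of the results of `w` comparisons of values of earlier gates with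
  constants. `κ` is the product of the numbers `w + 1` over all layers. So `κ ≤ 2 ^ t` for circuits
  with `t` NOT gates, and `κ = t + 1` if in addition no path contains two NOT gates.
* Programs (`TProg`): they read inputs, apply nondecreasing real functions to known values, and
  branch on the results of comparisons with constants, adaptively. If single comparisons are made,
  the width `m` is the number of leaves.

Result: for all `δ > 0` there are `q` and `C` such that randomised circuits with `2 κ ≤ μ`, and
randomised programs of width at most `μ`, which tell the games on `N + N` vertices of value one from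
those of value at most `δ` (with probability at least `3/4` on each game) have size at least `2 ^ L`,
for all `L ≥ C μ` with `L ^ (100 μ) ≤ N`. For a bounded number of NOT gates this is `2 ^ (N ^ c)`.
For every `k` the size is at least `2 ^ ((log₂ N) ^ k)` (`Nat.log 2` below) if
`100 k μ (log₂ log₂ N + 1) ≤ log₂ N` and `N` is large; so superpolynomial size is needed as long as
the number of NOT gates is at most `log₂ log₂ N - log₂ log₂ log₂ N - ω(1)`, and with at most one NOT
gate on each path, as long as their number is `o (log N / log log N)`.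
-/

open scoped Classical
open Finset

namespace Pool.Agent.Results.MP_ec946a_lc.FewNegations

open H589DT Pool.Agent.N631.FT

/-- A randomised program (a finite nonempty family `F` of programs) tells the games of value at most
`δ` (answer `true`) from those of value one (answer `false`), on each game for at least three
quarters of the members of the family. -/
def Tells {N q : ℕ} {Ω : Type} [Fintype Ω] (δ : ℝ)
    (F : Ω → TGame (Fin N) (Fin N) q → Bool) : Prop :=
  (∀ I, TNo δ I → 3 * Fintype.card Ω ≤ 4 * (univ.filter fun ω => F ω I = true).card) ∧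
    ∀ I, TYes I → 3 * Fintype.card Ω ≤ 4 * (univ.filter fun ω => F ω I = false).card

/-- On the 2-to-1 games with `N` vertices on each side and alphabet `[q]`, value one and value at
most `δ` cannot be told apart by randomised programs with less than `2 ^ L` steps and width at most
`μ`, nor by randomised circuits with less than `2 ^ L` gates and `2 κ ≤ μ`. -/
def Hard (q : ℕ) (δ : ℝ) (N L μ : ℕ) : Prop :=
  ∀ (Ω : Type) [Fintype Ω] [Nonempty Ω],
    (∀ (S m : Ω → ℕ) (F : Ω → TGame (Fin N) (Fin N) q → Bool),
      (∀ ω, TProg (tInputs (Fin N) (Fin N) q) [] (S ω) (m ω) (F ω)) → (∀ ω, m ω ≤ μ) →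
      Tells δ F → ∃ ω, 2 ^ L ≤ S ω) ∧
    (∀ (l : Ω → List (TGame (Fin N) (Fin N) q → ℝ)) (κ : Ω → ℕ),
      (∀ ω, NProg (tInputs (Fin N) (Fin N) q) (l ω) (κ ω)) → (∀ ω, 2 * κ ω ≤ μ) →
      TDecides δ l → ∃ ω, 2 ^ L ≤ (l ω).length)

/-- Let `δ > 0`. There are `q ≥ 1` and `C` such that (1) the gap problem on `N + N` vertices is hard
for size `2 ^ L` and width `μ ≥ 1` whenever `L ≥ C μ` and `L ^ (100 μ) ≤ N`; (2) it is hard for
size `2 ^ ((log₂ N) ^ k)` and width `μ ≥ 1` whenever `k ≥ 2`, `N ≥ 2 ^ (C + 2)` and
`100 k μ (log₂ log₂ N + 1) ≤ log₂ N`. -/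
theorem result (δ : ℝ) (hδ : 0 < δ) :
    ∃ q C : ℕ, 1 ≤ q ∧
      (∀ μ L N : ℕ, 1 ≤ μ → C * μ ≤ L → L ^ (100 * μ) ≤ N → Hard q δ N L μ) ∧
      ∀ k μ N : ℕ, 2 ≤ k → 1 ≤ μ → 2 ^ (C + 2) ≤ N →
        100 * k * μ * (Nat.log 2 (Nat.log 2 N) + 1) ≤ Nat.log 2 N →
        Hard q δ N ((Nat.log 2 N) ^ k) μ := by
  obtain ⟨q, C, hq, H⟩ := main_two δ hδ
  have key : ∀ μ L N : ℕ, 1 ≤ μ → C * μ ≤ L → L ^ (100 * μ) ≤ N → Hard q δ N L μ := by
    intro μ L N hμ hL hN Ω _ _
    have hp : ∀ (Ω : Type) [Fintype Ω] [Nonempty Ω] (S m : Ω → ℕ)
        (F : Ω → TGame (Fin N) (Fin N) q → Bool),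
      (∀ ω, TProg (tInputs (Fin N) (Fin N) q) [] (S ω) (m ω) (F ω)) → (∀ ω, m ω ≤ μ) →
      (∀ I, TNo δ I → 3 * Fintype.card Ω ≤ 4 * (univ.filter fun ω => F ω I = true).card) →
      (∀ I, TYes I → 3 * Fintype.card Ω ≤ 4 * (univ.filter fun ω => F ω I = false).card) →
      ∃ ω, 2 ^ L ≤ S ω := H μ L N hμ hL hN
    exact ⟨fun S m F h1 h2 h3 => hp Ω S m F h1 h2 h3.1 h3.2,
      fun l κ h1 h2 h3 => circuits_of_programs_two hp Ω l κ h1 h2 h3⟩
  refine ⟨q, C, hq, key, fun k μ N hk hμ hN h => ?_⟩
  obtain ⟨h1, h2⟩ := choose_log C k N μ hk hμ hN h
  exact key μ _ N hμ h1 h2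

end Pool.Agent.Results.MP_ec946a_lc.FewNegations
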